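import Pool.Agent.R629.Rev.Main

/-!
# Products of reversible elements in `Diffeo⁺(ℝ)`

`DiffPlus` is the group of order-preserving `C^∞` diffeomorphisms of `ℝ` (as a subgroup of the
group of permutations of `ℝ`), and `Reversible g` means that `g` is conjugate to `g⁻¹` in the group.
-/

namespace Pool.Agent.Results.MP_608a10_al.ThreeReversible

open Pool.Agent.R629.Rev

/-- Every orientation-preserving diffeomorphism of the line is a product of three reversible ones
(positive answer to Q2), and it is a product of two reversible ones whenever the set of points it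
moves is unbounded (positive answer to Q1 for all such diffeomorphisms). -/
theorem result :
    (∀ f : DiffPlus, ∃ g₁ g₂ g₃ : DiffPlus,
      Reversible g₁ ∧ Reversible g₂ ∧ Reversible g₃ ∧ f = g₁ * g₂ * g₃) ∧
    (∀ f : DiffPlus, (∀ B : ℝ, ∃ x : ℝ, B < |x| ∧ (f : Equiv.Perm ℝ) x ≠ x) →
      ∃ g₁ g₂ : DiffPlus, Reversible g₁ ∧ Reversible g₂ ∧ f = g₁ * g₂) :=
  ⟨fun f => three f, fun _ hf => two_of_unbounded hf⟩

end Pool.Agent.Results.MP_608a10_al.ThreeReversible
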